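import Mathlib
import Pool.Agent.W443.J5.Stms
import Pool.Agent.H928R2.ThreeCore

/-! Critical points, the case of the additional monomial `x ^ a y`. -/

set_option autoImplicit false

open Polynomial

namespace Pool.Agent.W125.J5

/-- a root of the polynomial for `σ` -/
theorem exists_sigma {K : Type*} [Field K] [IsAlgClosed K] (K1 K2 l m b c : K) (A B E : ℕ)
    (h2 : K2 ≠ 0) (hm : m ≠ 0) (hE : E < A + B) :
    ∃ s : K, K1 * (c - b * s) ^ E = K2 * s ^ A * (l + m * s) ^ B := by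
  set P : K[X] := C K1 * (C c - C b * X) ^ E with hP
  set Q : K[X] := C K2 * X ^ A * (C l + C m * X) ^ B with hQ
  have hPd : P.natDegree ≤ E := by
    rw [hP]
    refine (natDegree_C_mul_le _ _).trans ?_
    refine (natDegree_pow_le).trans ?_
    have : (C c - C b * X : K[X]).natDegree ≤ 1 := by
      compute_degree
    nlinarith
  have hlin : (C l + C m * X : K[X]).natDegree = 1 := by
    rw [add_comm]
    exact natDegree_linear hm
  have hlin0 : (C l + C m * X : K[X]) ≠ 0 := by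
    intro h
    rw [h] at hlin
    simp at hlin
  have hQ0 : Q ≠ 0 := by
    rw [hQ]
    exact mul_ne_zero (mul_ne_zero (C_ne_zero.2 h2) (pow_ne_zero _ X_ne_zero))
      (pow_ne_zero _ hlin0)
  have hQd : Q.natDegree = A + B := by
    rw [hQ, natDegree_mul (mul_ne_zero (C_ne_zero.2 h2) (pow_ne_zero _ X_ne_zero))
      (pow_ne_zero _ hlin0), natDegree_C_mul h2, natDegree_X_pow, natDegree_pow, hlin, mul_one]
  have hlt : P.natDegree < Q.natDegree := by omega
  have hdeg : (Q - P).natDegree = A + B := by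
    rw [natDegree_sub_eq_left_of_natDegree_lt hlt, hQd]
  have hd : (Q - P).degree ≠ 0 := by
    intro h
    have := natDegree_eq_zero_iff_degree_le_zero.2 h.le
    omega
  obtain ⟨s, hs⟩ := IsAlgClosed.exists_root (Q - P) hd
  refine ⟨s, ?_⟩
  have h := hs
  rw [IsRoot, eval_sub, sub_eq_zero] at h
  simp only [hP, hQ, eval_mul, eval_C, eval_pow, eval_add, eval_sub, eval_X] at h
  exact h.symm

theorem c3 : Pool.Agent.W443.J5.S_C3 := by
  intro K _ _ _ α γ κ l m a p q hα hγ hκ hl hm ha hp hq hlt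
  set n1 := 2 * p - 1 with hn1
  set n2 := p + (a - 1) * q with hn2
  have hn1' : n1 + 1 = 2 * p := by omega
  obtain ⟨a', rfl⟩ : ∃ a', a = a' + 1 := ⟨a - 1, by omega⟩
  rw [Nat.add_sub_cancel] at hn2
  have hn2' : n2 + q = p + (a' + 1) * q := by rw [hn2]; ring
  set g := Nat.gcd n1 n2 with hg
  have hn1pos : 0 < n1 := by omega
  have hn2pos : 0 < n2 := by omega
  have hgpos : 0 < g := Nat.gcd_pos_of_pos_left _ hn1pos
  obtain ⟨a1, a2, hco, h1, h2⟩ := Nat.exists_coprime n1 n2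
  rw [← hg] at h1 h2
  have ha1 : 0 < a1 := by
    rcases Nat.eq_zero_or_pos a1 with h | h
    · rw [h, zero_mul] at h1
      omega
    · exact h
  have ha2 : 0 < a2 := by
    rcases Nat.eq_zero_or_pos a2 with h | h
    · rw [h, zero_mul] at h2
      omega
    · exact h
  -- E
  have hEpos : a2 < q * a1 := by
    apply Nat.lt_of_mul_lt_mul_right (a := g)
    rw [mul_assoc, ← h1, ← h2]
    have e1 : q * (n1 + 1) = q * (2 * p) := by rw [hn1']
    nlinarith
  obtain ⟨E, hE⟩ : ∃ E, q * a1 = a2 + E := ⟨q * a1 - a2, by omega⟩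
  have hE1 : 0 < E := by omega
  have hdeg : a1 < 2 * a2 := by
    apply Nat.lt_of_mul_lt_mul_right (a := g)
    rw [mul_assoc, ← h1, ← h2]
    nlinarith [Nat.zero_le (a' * q)]
  obtain ⟨q', rfl⟩ : ∃ q', q = q' + 1 := ⟨q - 1, by omega⟩
  have hElt : E < q' * a1 + a2 := by
    have : (q' + 1) * a1 = q' * a1 + a1 := by ring
    omega
  have hp0 : (p : K) ≠ 0 := by
    have : p ≠ 0 := by omega
    exact_mod_cast this
  have hq0 : ((q' + 1 : ℕ) : K) ≠ 0 := by
    have : q' + 1 ≠ 0 := by omega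
    exact_mod_cast this
  have ha0 : ((a' + 1 : ℕ) : K) ≠ 0 := by
    have : a' + 1 ≠ 0 := by omega
    exact_mod_cast this
  have h20 : (2 : K) ≠ 0 := two_ne_zero
  set Q : K := ((q' + 1 : ℕ) : K) with hQ
  set A : K := ((a' + 1 : ℕ) : K) with hA
  have hK2 : (α * m * Q / γ) ^ ((q' + 1) * a1) ≠ 0 :=
    pow_ne_zero _ (div_ne_zero (mul_ne_zero (mul_ne_zero hα hm) hq0) hγ)
  have hK1 : (-α / (2 * κ)) ^ a2 ≠ 0 :=
    pow_ne_zero _ (div_ne_zero (neg_ne_zero.2 hα) (mul_ne_zero h20 hκ))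
  obtain ⟨σ, hσ⟩ := exists_sigma ((-α / (2 * κ)) ^ a2) ((α * m * Q / γ) ^ ((q' + 1) * a1)) l m
    (A * m * Q) (l * p) (q' * a1) a2 E hK2 hm hElt
  have hq'1 : 0 < q' * a1 := Nat.mul_pos (by omega) ha1
  have hsum : A * Q + p ≠ 0 := by
    have h : (a' + 1) * (q' + 1) + p ≠ 0 := by omega
    have h3 : (((a' + 1) * (q' + 1) + p : ℕ) : K) ≠ 0 := by exact_mod_cast h
    rw [hA, hQ]
    push_cast at h3 ⊢
    exact h3
  have hσ0 : σ ≠ 0 := by
    rintro rfl
    rw [mul_zero, sub_zero, zero_pow hq'1.ne', mul_zero, zero_mul] at hσ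
    exact mul_ne_zero hK1 (pow_ne_zero _ (mul_ne_zero hl hp0)) hσ
  have hS0 : l + m * σ ≠ 0 := by
    intro h
    rw [h, zero_pow ha2.ne', mul_zero] at hσ
    have hN : l * p - A * m * Q * σ = l * (A * Q + p) := by
      have : m * σ = -l := by linear_combination h
      linear_combination (-(A * Q)) * this
    rw [hN] at hσ
    exact mul_ne_zero hK1 (pow_ne_zero _ (mul_ne_zero hl hsum)) hσ
  have hN0 : l * p - A * m * Q * σ ≠ 0 := by
    intro h
    rw [h, zero_pow hE1.ne', mul_zero] at hσ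
    exact mul_ne_zero (mul_ne_zero hK2 (pow_ne_zero _ hσ0)) (pow_ne_zero _ hS0) hσ.symm
  set N : K := l * p - A * m * Q * σ with hN
  set S : K := l + m * σ with hS
  have hu1 : -α / (2 * κ * S * N) ≠ 0 :=
    div_ne_zero (neg_ne_zero.2 hα) (mul_ne_zero (mul_ne_zero (mul_ne_zero h20 hκ) hS0) hN0)
  have hu2 : (α * m * Q / γ) ^ (q' + 1) * σ ^ q' / N ^ (q' + 1) ≠ 0 :=
    div_ne_zero (mul_ne_zero (pow_ne_zero _ (div_ne_zero (mul_ne_zero (mul_ne_zero hα hm) hq0)
      hγ)) (pow_ne_zero _ hσ0)) (pow_ne_zero _ hN0)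
  have hcomp : (-α / (2 * κ * S * N)) ^ a2 =
      ((α * m * Q / γ) ^ (q' + 1) * σ ^ q' / N ^ (q' + 1)) ^ a1 := by
    have e1 : (-α / (2 * κ * S * N)) ^ a2 = (-α / (2 * κ)) ^ a2 / (S ^ a2 * N ^ a2) := by
      rw [div_pow, div_pow, mul_pow, mul_pow]
      rw [div_div]
      congr 1
      ring
    have e2 : ((α * m * Q / γ) ^ (q' + 1) * σ ^ q' / N ^ (q' + 1)) ^ a1 =
        (α * m * Q / γ) ^ ((q' + 1) * a1) * σ ^ (q' * a1) / N ^ ((q' + 1) * a1) := by
      rw [div_pow, mul_pow, ← pow_mul, ← pow_mul, ← pow_mul]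
    have hNp : N ^ ((q' + 1) * a1) = N ^ a2 * N ^ E := by rw [hE, pow_add]
    rw [e1, e2, div_eq_div_iff (mul_ne_zero (pow_ne_zero _ hS0) (pow_ne_zero _ hN0))
      (pow_ne_zero _ hN0), hNp]
    linear_combination N ^ a2 * hσ
  obtain ⟨x, hx0, hx1, hx2⟩ := Pool.Agent.H928R2.Three.pow_solve hgpos hco _ _ hu1 hu2 hcomp
  rw [mul_comm g a1, ← h1] at hx1
  rw [mul_comm g a2, ← h2] at hx2
  have hxa0 : x ^ a' ≠ 0 := pow_ne_zero _ hx0
  set y : K := α * m * Q * σ / (γ * x ^ a' * N) with hy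
  have hy0 : y ≠ 0 := div_ne_zero (mul_ne_zero (mul_ne_zero (mul_ne_zero hα hm) hq0) hσ0)
    (mul_ne_zero (mul_ne_zero hγ hxa0) hN0)
  have hyq : y ^ (q' + 1) = σ * x ^ p := by
    have e1 : y ^ (q' + 1) * x ^ (a' * (q' + 1)) =
        σ * ((α * m * Q / γ) ^ (q' + 1) * σ ^ q' / N ^ (q' + 1)) := by
      rw [pow_mul, ← mul_pow, hy]
      have : α * m * Q * σ / (γ * x ^ a' * N) * x ^ a' = (α * m * Q / γ) * σ / N := by
        field_simp
      rw [this, div_pow, mul_pow, pow_succ σ]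
      ring
    rw [← hx2, hn2, pow_add x p, ← mul_assoc] at e1
    exact mul_right_cancel₀ (pow_ne_zero _ hx0) e1
  have hR : l * x ^ p + m * y ^ (q' + 1) = x ^ p * S := by
    rw [hyq, hS]
    ring
  have hxy : γ * x ^ a' * y = α * m * Q * σ / N := by
    rw [hy]
    field_simp
  have hxn : x ^ (p - 1) * x ^ p = -α / (2 * κ * S * N) := by
    rw [← pow_add, ← hx1]
    congr 1
    omega
  refine ⟨x, y, ?_, ?_⟩
  · rw [hR, Nat.add_sub_cancel]
    have e1 : α + A * γ * x ^ a' * y + 2 * κ * l * p * x ^ (p - 1) * (x ^ p * S) =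
        α + A * (γ * x ^ a' * y) + 2 * κ * l * p * S * (x ^ (p - 1) * x ^ p) := by ring
    rw [e1, hxy, hxn]
    field_simp
    rw [hN]
    ring
  · rw [hR, Nat.add_sub_cancel]
    apply mul_right_cancel₀ hy0
    rw [zero_mul]
    have hxp : x ^ p = x ^ (p - 1) * x := by
      rw [← pow_succ]
      congr 1
      omega
    have e1 : (γ * x ^ (a' + 1) + 2 * κ * m * Q * y ^ q' * (x ^ p * S)) * y =
        x * (γ * x ^ a' * y) + 2 * κ * m * Q * y ^ (q' + 1) * (x ^ p * S) := by ring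
    rw [e1, hxy, hyq]
    have e2 : 2 * κ * m * Q * (σ * x ^ p) * (x ^ p * S) =
        2 * κ * m * Q * σ * S * x * (x ^ (p - 1) * x ^ p) := by
      conv_lhs => rw [hxp]
      conv_rhs => rw [hxp]
      ring
    rw [e2, hxn]
    field_simp
    ring

end Pool.Agent.W125.J5
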